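import Mathlib
import Pool.Agent.Lib.helper19.Ten3

set_option autoImplicit false

namespace Pool.Agent.Results.MP_a9d09b_co.NoTensor

open Finset Pool.Agent.H19Ten

section Aux

variable {F : Type} [Field F] {ι : Type} [Fintype ι] [DecidableEq ι] {k : ℕ}

/-- the tensor of `(x·y)(z·w) ⊕ (x·z)(y·w)` -/
def AT (F : Type) [Field F] {ι : Type} {k : ℕ} (e : Bool × Fin k ≃ ι) : (Fin 4 → ι) → F :=
  fun I => if Pat (fun i => e.symm (I i)) then 1 else 0

lemma form_AT (e : Bool × Fin k ≃ ι) (X : Fin 4 → ι → F) :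
    form (AT F e) X =
      (∑ a, X 0 (e (false, a)) * X 1 (e (false, a))) * (∑ b, X 2 (e (false, b)) * X 3 (e (false, b)))
      + (∑ c, X 0 (e (true, c)) * X 2 (e (true, c))) * (∑ d, X 1 (e (true, d)) * X 3 (e (true, d))) := by
  have : ∑ w : Bool × Fin k × Fin k, (∏ i, X i ((fun w : Bool × Fin k × Fin k =>
      if w.1 then ![e (true, w.2.1), e (true, w.2.2), e (true, w.2.1), e (true, w.2.2)]
      else ![e (false, w.2.1), e (false, w.2.1), e (false, w.2.2), e (false, w.2.2)]) w i))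
      = form (AT F e) X := by
    unfold form
    refine sum_of_injOn (fun w : Bool × Fin k × Fin k =>
      if w.1 then ![e (true, w.2.1), e (true, w.2.2), e (true, w.2.1), e (true, w.2.2)]
      else ![e (false, w.2.1), e (false, w.2.1), e (false, w.2.2), e (false, w.2.2)])
      ?_ (fun _ _ => mem_univ _) ?_ ?_
    · rintro ⟨s, a, b⟩ _ ⟨s', a', b'⟩ _ h
      have h0 := congrFun h 0
      have h3 := congrFun h 3
      cases s <;> cases s' <;> simp_all
    · intro I _ hI
      unfold AT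
      rw [if_neg, zero_mul]
      intro hp
      apply hI
      obtain ⟨J, rfl⟩ : ∃ J : Fin 4 → Bool × Fin k, I = fun i => e (J i) :=
        ⟨fun i => e.symm (I i), by simp⟩
      simp only [Pat, Equiv.symm_apply_apply] at hp
      obtain ⟨h1, h2, h3, h4, h5⟩ := hp
      refine ⟨((J 0).1, (J 0).2, (J 3).2), mem_univ _, ?_⟩
      funext i
      cases hs : (J 0).1
      · obtain ⟨h6, h7⟩ := h5 hs
        fin_cases i <;> simp [Prod.ext_iff, *]
      · obtain ⟨h6, h7⟩ := h4 hs
        fin_cases i <;> simp [Prod.ext_iff, *]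
    · rintro ⟨s, a, b⟩ _
      cases s <;> simp [AT, Pat]
  rw [← this, Fintype.sum_prod_type, Fintype.sum_bool, add_comm, sum_mul_sum, sum_mul_sum,
    Fintype.sum_prod_type, Fintype.sum_prod_type]
  congr 1 <;> refine sum_congr rfl fun a _ => sum_congr rfl fun b _ => ?_ <;>
    simp [Fin.prod_univ_four] <;> ring

lemma hasPR_AT (e : Bool × Fin k ≃ ι) : HasPR (AT F e) 2 := by
  refine ⟨![{0, 1}, {0, 2}],
    ![fun X => ∑ a, X 0 (e (false, a)) * X 1 (e (false, a)),
      fun X => ∑ c, X 0 (e (true, c)) * X 2 (e (true, c))],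
    ![fun X => ∑ b, X 2 (e (false, b)) * X 3 (e (false, b)),
      fun X => ∑ d, X 1 (e (true, d)) * X 3 (e (true, d))], ?_, fun X => ?_⟩
  · have hne : ∀ a b : Fin 4, a ≠ 3 → b ≠ 3 → ({a, b} : Set (Fin 4)) ≠ Set.univ := by
      intro a b ha hb h
      have : (3 : Fin 4) ∈ ({a, b} : Set (Fin 4)) := by rw [h]; trivial
      rcases this with h | h
      · exact ha h.symm
      · exact hb h.symm
    intro j
    fin_cases j
    · refine ⟨by simp [Set.insert_nonempty, ← Set.nonempty_iff_ne_empty],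
        hne 0 1 (by decide) (by decide), fun X Y h => ?_, fun X Y h => ?_⟩
      · simp [h 0 (by simp), h 1 (by simp)]
      · simp [h 2 (by simp), h 3 (by simp)]
    · refine ⟨by simp [Set.insert_nonempty, ← Set.nonempty_iff_ne_empty],
        hne 0 2 (by decide) (by decide), fun X Y h => ?_, fun X Y h => ?_⟩
      · simp [h 0 (by simp), h 2 (by simp)]
      · simp [h 1 (by simp), h 3 (by simp)]
  · rw [form_AT]; simp

omit [Fintype ι] [DecidableEq ι] in
lemma sub_AT {k : ℕ} (hk : 0 < k) (e : Bool × Fin (2 * k) ≃ ι) (c : ℝ) (hc0 : 0 < c)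
    (hc1 : c < 1) : ∃ m N : ℕ, 1 ≤ m ∧ c ^ m * (4 * k) ^ m ≤ N ∧
      Sub (tpow m (AT F e)) (Fin N) := by
  obtain ⟨m, N, Φ, hm, hN, hΦ⟩ := asym k hk c hc0 hc1
  refine ⟨m, N, hm, hN, fun i u q => e (Φ i u q), fun u => ?_⟩
  unfold tpow AT idT
  rw [prod_boole]
  congr 1
  rw [← hΦ u]
  simp

lemma arank_AT {p : ℕ} [hp : Fact p.Prime] (e : Bool × Fin k ≃ ι) :
    arank (AT (ZMod p) e) ≤ 2 := by
  classical
  have hp1 : (1 : ℝ) < p := by exact_mod_cast hp.out.one_lt
  obtain ⟨Q, hQ⟩ : ∃ Q : (Fin 4 → ι → ZMod p) → Prop, ∀ X, Q X ↔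
      (∑ b, X 2 (e (false, b)) * X 3 (e (false, b)) = 0 ∧
        ∑ d, X 1 (e (true, d)) * X 3 (e (true, d)) = 0) := ⟨_, fun _ => Iff.rfl⟩
  have h1 : (univ.filter Q).card ≤ cnt (AT (ZMod p) e) 0 := by
    refine card_le_card fun X hX => ?_
    simp only [mem_filter, mem_univ, true_and, hQ] at hX ⊢
    intro a
    rw [form_AT]
    simp [hX.1, hX.2]
  have h2 : ∀ X : Fin 4 → ι → ZMod p, Fintype.card (ι → ZMod p) ≤
      p ^ 2 * ∑ v, (if Q (Function.update X 3 v) then 1 else 0) := by
    intro X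
    let L : (ι → ZMod p) →+ ZMod p × ZMod p :=
      { toFun := fun v => (∑ b, X 2 (e (false, b)) * v (e (false, b)),
          ∑ d, X 1 (e (true, d)) * v (e (true, d)))
        map_zero' := by simp
        map_add' := fun v w => by simp [mul_add, sum_add_distrib] }
    have a1 := card_le_mul_card_image_of_maps_to (s := univ) (t := univ.image L) (f := L)
      (fun a ha => mem_image_of_mem _ ha) (univ.filter fun v => L v = 0).card (by
        intro y hy
        obtain ⟨x, -, rfl⟩ := mem_image.1 hy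
        exact (AddMonoidHom.card_fiber_eq_of_mem_range L ⟨x, rfl⟩ ⟨0, map_zero L⟩).le)
    have a2 : (univ.image L).card ≤ p ^ 2 := by
      refine (card_le_univ _).trans ?_
      simp [ZMod.card, sq]
    have a3 : (univ.filter fun v => L v = 0).card
        = ∑ v, (if Q (Function.update X 3 v) then 1 else 0) := by
      rw [card_filter]
      refine sum_congr rfl fun v _ => ?_
      congr 1
      rw [hQ]
      simp [L]
    rw [← a3, mul_comm]
    exact a1.trans (Nat.mul_le_mul_left _ a2)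
  have h3 : Fintype.card (Fin 4 → ι → ZMod p) ≤ p ^ 2 * (univ.filter Q).card := by
    have b1 := sum_le_sum fun X (_ : X ∈ univ) => h2 X
    rw [← mul_sum, sum_update (fun X => if Q X then 1 else 0) 3, ← card_filter, sum_const,
      card_univ, smul_eq_mul, smul_eq_mul, mul_comm, mul_left_comm] at b1
    exact Nat.le_of_mul_le_mul_left b1 Fintype.card_pos
  have h4 : ((p : ℝ) ^ 2)⁻¹ ≤ (bias (AT (ZMod p) e)).re := by
    rw [bias_re _ 0, le_div_iff₀ (by exact_mod_cast Fintype.card_pos), inv_mul_le_iff₀ (by positivity)]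
    exact_mod_cast h3.trans (Nat.mul_le_mul_left _ h1)
  unfold arank
  have h5 := Real.logb_le_logb_of_le hp1 (by positivity) h4
  rw [Real.logb_inv, Real.logb_pow, Real.logb_self_eq_one hp1] at h5
  push_cast at h5
  linarith

lemma exists_e (k : ℕ) : Nonempty (Bool × Fin (2 * k) ≃ Fin (4 * k)) :=
  ⟨Fintype.equivFinOfCardEq (by simp; ring)⟩

end Aux

/-- Neither the partition rank (over any field) nor the analytic rank (over any prime field)
tensorizes, already for `d = 4`. -/
theorem result :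
    (∀ (F : Type) [Field F], ∃ (n : ℕ) (A : (Fin 4 → Fin n) → F), 1 ≤ n ∧
      prank A < prank (idT F 4 (Fin n)) ∧
      ∀ c : ℝ, c < 1 → ∃ m : ℕ, 1 ≤ m ∧
        c ^ m * (prank (tpow m (idT F 4 (Fin n))) : ℝ) ≤ (prank (tpow m A) : ℝ)) ∧
    (∀ (p : ℕ) [Fact p.Prime], ∃ (n : ℕ) (A : (Fin 4 → Fin n) → ZMod p), 1 ≤ n ∧
      arank A < arank (idT (ZMod p) 4 (Fin n)) ∧
      ∀ c : ℝ, c < 1 → ∃ m : ℕ, 1 ≤ m ∧
        c ^ m * arank (tpow m (idT (ZMod p) 4 (Fin n))) ≤ arank (tpow m A)) := by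
  refine ⟨fun F _ => ?_, fun p hp => ?_⟩
  · obtain ⟨e⟩ := exists_e 1
    refine ⟨4 * 1, AT F e, by norm_num, ?_, fun c hc => ?_⟩
    · rw [prank_id 2]
      exact (prank_le (hasPR_AT e)).trans_lt (by simp)
    · rcases le_or_gt c 0 with hc0 | hc0
      · refine ⟨1, le_rfl, le_trans ?_ (Nat.cast_nonneg _)⟩
        rw [pow_one]
        exact mul_nonpos_of_nonpos_of_nonneg hc0 (Nat.cast_nonneg _)
      · obtain ⟨m, N, hm, hN, hS⟩ := sub_AT (F := F) one_pos e c hc0 hc
        refine ⟨m, hm, ?_⟩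
        have := le_prank (d := 2) hS
        rw [Fintype.card_fin] at this
        rw [tpow_id, prank_id 2]
        refine le_trans ?_ (hN.trans (by exact_mod_cast this))
        simp
  · obtain ⟨γ, hγ, hid⟩ := exists_gamma p 2
    obtain ⟨k, hk⟩ := exists_nat_gt (2 / γ)
    have hk0 : (0 : ℝ) < k := lt_trans (by positivity) hk
    rw [div_lt_iff₀ hγ] at hk
    have hk1 : 0 < k := by exact_mod_cast hk0
    obtain ⟨e⟩ := exists_e k
    refine ⟨4 * k, AT (ZMod p) e, by omega, ?_, fun c hc => ?_⟩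
    · rw [hid]
      refine (arank_AT e).trans_lt ?_
      simp only [Fintype.card_fin]
      push_cast
      nlinarith
    · rcases le_or_gt c 0 with hc0 | hc0
      · refine ⟨1, le_rfl, ?_⟩
        have h0 : Sub (tpow 1 (AT (ZMod p) e)) (Fin 0) := ⟨fun _ u => u.elim0, fun u => (u 0).elim0⟩
        have := le_arank (d := 2) h0
        rw [hid] at this
        rw [tpow_id, hid, pow_one]
        refine le_trans (b := 0) ?_ (le_trans (by simp) this)
        exact mul_nonpos_of_nonpos_of_nonneg hc0 (by positivity)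
      · obtain ⟨m, N, hm, hN, hS⟩ := sub_AT (F := ZMod p) hk1 e c hc0 hc
        refine ⟨m, hm, ?_⟩
        have := le_arank (d := 2) hS
        rw [hid, Fintype.card_fin] at this
        rw [tpow_id, hid]
        refine le_trans ?_ this
        rw [← mul_assoc]
        refine mul_le_mul_of_nonneg_right (le_trans (le_of_eq ?_) hN) hγ.le
        simp

end Pool.Agent.Results.MP_a9d09b_co.NoTensor
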